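import Pool.Agent.Lib.MP_e9cf1e_co.Final

set_option autoImplicit false

/-!
Kalai's conjecture: the f-vector of a flag Cohen-Macaulay complex is the f-vector of a balanced
Cohen-Macaulay complex.

Outline of the proof.
* Frankl-Füredi-Kalai theorem for coloured families (`Rainbow`, `Glue`, `FFK`).
* Reisner's criterion implies that Vandermonde linear forms are a regular sequence on the
  Stanley-Reisner ring (`WReg`, `Simp`, `Links`, `SR`, `Reg`), by the partition complex.
* The Hilbert function of the artinian reduction of the Stanley-Reisner ring of a flag complex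
  satisfies the Frankl-Füredi-Kalai inequalities (`Hilb`, `Cls`, `HilbSer`, `Flag`).
* From a coloured complex to a balanced Cohen-Macaulay complex (`Bal`, `Final`).
-/

namespace Pool.Agent.Results.MP_e9cf1e_co.KalaiFlagCM

open Pool.Agent.Lib.MP_e9cf1e_co

/-- For every field `k` and every finite flag complex `Δ` which is Cohen-Macaulay over `k` there
is a balanced complex `Γ`, Cohen-Macaulay over `k`, with the same f-vector. -/
theorem result (k : Type*) [Field k] {V : Type*} [LinearOrder V] [Fintype V]
    (Δ : Finset (Finset V)) (hΔ : IsComplex Δ) (hflag : IsFlag Δ) (hcm : IsCM k Δ) :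
    ∃ Γ : Finset (Finset ℕ), IsComplex Γ ∧ IsBalanced Γ ∧ IsCM k Γ ∧
      ∀ i, fNum Γ i = fNum Δ i :=
  main k Δ hΔ hflag hcm

end Pool.Agent.Results.MP_e9cf1e_co.KalaiFlagCM
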